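import Pool.Agent.W324.ZAP.Bits
set_option autoImplicit false

namespace Pool.Agent.W324.ZAP

open Classical in
lemma exists_low (x : ℤ) : ∃ k, Low k x := by
  refine ⟨x.natAbs, Or.inl ?_⟩
  have h1 : (x.natAbs : ℤ) < 2 ^ x.natAbs := by exact_mod_cast Nat.lt_two_pow_self
  have h2 : (2 : ℤ) ^ x.natAbs ≤ tau x.natAbs := by
    unfold tau; exact pow_le_pow_right₀ (by norm_num) (le_m _)
  have h3 := tau_pos x.natAbs
  rw [Int.abs_eq_natAbs]
  linarith

open Classical in
/-- window index -/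
noncomputable def kap (x : ℤ) : ℕ := Nat.find (exists_low x)

lemma kap_le_iff {k : ℕ} {x : ℤ} : kap x ≤ k ↔ Low k x := by
  classical
  unfold kap
  rw [Nat.find_le_iff]
  constructor
  · rintro ⟨j, hj, h⟩; exact Low_mono hj h
  · intro h; exact ⟨k, le_rfl, h⟩

lemma abs_lt_of_kap_lt {k : ℕ} {x : ℤ} (h : kap x < k) : |x| < tau k := by
  obtain ⟨j, rfl⟩ : ∃ j, k = j + 1 := ⟨k - 1, by omega⟩
  exact Low_bound (kap_le_iff.1 (by omega))

def B (k : ℕ) : ℕ := m (k + 1) + 1

lemma B_lt (k : ℕ) : B k + 1 ≤ B (k + 1) := by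
  unfold B; have := m_lt (k + 1); omega

lemma B_mono {j k : ℕ} (h : j ≤ k) : B j ≤ B k := by
  unfold B; have := m_mono (show j + 1 ≤ k + 1 by omega); omega

lemma le_B (k : ℕ) : k ≤ B k := by
  unfold B; have := le_m (k + 1); omega

/-- absolute value of the position -/
noncomputable def A (x : ℤ) : ℤ := 2 ^ (B (kap x)) + (N (B (kap x)) x : ℤ)

/-- the position of `x` in the doubly infinite order -/
noncomputable def K (x : ℤ) : ℤ := (-1) ^ (kap x) * A x

lemma A_ge (x : ℤ) : 2 ^ (B (kap x)) ≤ A x := by unfold A; have : (0:ℤ) ≤ ((N (B (kap x)) x : ℕ) : ℤ) := Int.natCast_nonneg _; linarith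
lemma A_lt (x : ℤ) : A x < 2 ^ (B (kap x) + 1) := by
  unfold A
  have h : ((N (B (kap x)) x : ℕ) : ℤ) < 2 ^ (B (kap x)) := by exact_mod_cast N_lt_pow _ _
  have : (2 : ℤ) ^ (B (kap x) + 1) = 2 * 2 ^ (B (kap x)) := by ring
  linarith

lemma A_lt_A {x y : ℤ} (h : kap x < kap y) : A x < A y := by
  have h1 := A_lt x
  have h2 := A_ge y
  have h3 : B (kap x) + 1 ≤ B (kap y) := by
    have := B_lt (kap x)
    have := B_mono (show kap x + 1 ≤ kap y by omega)
    omega
  have h4 : (2 : ℤ) ^ (B (kap x) + 1) ≤ 2 ^ (B (kap y)) := pow_le_pow_right₀ (by norm_num) h3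
  linarith

lemma A_pos (x : ℤ) : 0 < A x := lt_of_lt_of_le (by positivity) (A_ge x)

lemma t_lt_B {x q : ℤ} {t : ℕ} (hq : q % 2 = 1) (h : kap x = kap (x + 2 ^ t * q)) :
    t < B (kap x) := by
  have h1 : |x| < tau (kap x + 1) := abs_lt_of_kap_lt (by omega)
  have h2 : |x + 2 ^ t * q| < tau (kap x + 1) := abs_lt_of_kap_lt (by omega)
  have h1' := abs_lt.1 h1
  have h2' := abs_lt.1 h2
  have h3 : |(2 : ℤ) ^ t * q| < 2 ^ (m (kap x + 1) + 1) := by
    have e : (2 : ℤ) ^ (m (kap x + 1) + 1) = 2 * tau (kap x + 1) := by unfold tau; ring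
    rw [e, abs_lt]; constructor <;> linarith [h1'.1, h1'.2, h2'.1, h2'.2]
  have h4 : (2 : ℤ) ^ t ≤ |(2 : ℤ) ^ t * q| := by
    rw [abs_mul, abs_of_pos (by positivity : (0 : ℤ) < 2 ^ t)]
    have : 1 ≤ |q| := Int.one_le_abs (by omega)
    nlinarith [pow_pos (by norm_num : (0 : ℤ) < 2) t]
  have h5 := (pow_lt_pow_iff_right₀ (by norm_num : (1 : ℤ) < 2)).1 (h4.trans_lt h3)
  exact h5

/-- zone number -/
noncomputable def P (k t : ℕ) (x : ℤ) : ℕ :=
  if kap x = k + 1 then (if c t x then 4 else 3)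
  else if kap x = k then (if c t x then 0 else 1) else 2

lemma P_top {k t : ℕ} {x : ℤ} (h : kap x = k + 1) : P k t x = if c t x then 4 else 3 := by
  unfold P; rw [if_pos h]

lemma P_bot {k t : ℕ} {x : ℤ} (h : kap x = k) : P k t x = if c t x then 0 else 1 := by
  unfold P; rw [if_neg (show ¬ kap x = k + 1 by omega), if_pos h]

lemma P_mid {k t : ℕ} {x : ℤ} (h : kap x < k) : P k t x = 2 := by
  unfold P; rw [if_neg (show ¬ kap x = k + 1 by omega), if_neg (show ¬ kap x = k by omega)]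

/-- side sign of transition `k` -/
def sg (k : ℕ) : ℤ := (-1) ^ (k + 1)

lemma sgK_top {k : ℕ} {x : ℤ} (h : kap x = k + 1) : sg k * K x = A x := by
  unfold sg K; rw [h, ← mul_assoc, ← pow_add, Even.neg_one_pow ⟨k + 1, rfl⟩, one_mul]

lemma sgK_bot {k : ℕ} {x : ℤ} (h : kap x = k) : sg k * K x = - A x := by
  unfold sg K; rw [h, ← mul_assoc, ← pow_add, Odd.neg_one_pow ⟨k, by ring⟩]; ring

lemma sgK_abs (k : ℕ) (x : ℤ) : |sg k * K x| = A x := by
  unfold sg K
  rw [abs_mul, abs_mul, abs_pow, abs_pow, abs_of_pos (A_pos x)]; simp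

lemma P_lt {k t : ℕ} {x q : ℤ} (hq : q % 2 = 1) (hx : kap x ≤ k + 1)
    (hy : kap (x + 2 ^ t * q) ≤ k + 1) (hT : ¬ (kap x < k ∧ kap (x + 2 ^ t * q) < k))
    (h : sg k * K x < sg k * K (x + 2 ^ t * q)) : P k t x < P k t (x + 2 ^ t * q) := by
  have hc := c_ne (t := t) x q hq
  have hBt := t_lt_B (x := x) (q := q) (t := t) hq
  generalize hyd : x + 2 ^ t * q = y at *
  have hax := abs_le.1 (sgK_abs k x).le
  have hay := abs_le.1 (sgK_abs k y).le
  rcases lt_trichotomy (kap x) k with h1 | h1 | h1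
  · rcases lt_trichotomy (kap y) k with h2 | h2 | h2
    · exact absurd ⟨h1, h2⟩ hT
    · exfalso
      rw [sgK_bot h2] at h
      have := A_lt_A (show kap x < kap y by omega)
      linarith [hax.1]
    · have h2 : kap y = k + 1 := by omega
      rw [P_mid h1, P_top h2]
      split_ifs <;> omega
  · rcases lt_trichotomy (kap y) k with h2 | h2 | h2
    · rw [P_bot h1, P_mid h2]
      split_ifs <;> omega
    · -- both in the lower window
      rw [sgK_bot h1, sgK_bot h2] at h
      have hB := hBt (by omega)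
      have hN : N (B (kap x)) y < N (B (kap x)) x := by
        unfold A at h; rw [h2, h1] at h; rw [h1]
        have : ((N (B k) y : ℕ) : ℤ) < ((N (B k) x : ℕ) : ℤ) := by linarith
        exact_mod_cast this
      have hcx : c t x = true := by
        by_contra hcf
        have hcf' : c t x = false := by simpa using hcf
        have := N_lt_of hB x q hq hcf'
        rw [hyd] at this; omega
      rw [P_bot h1, P_bot h2, hc, hcx]
      simp
    · have h2 : kap y = k + 1 := by omega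
      rw [P_bot h1, P_top h2]
      split_ifs <;> omega
  · have h1 : kap x = k + 1 := by omega
    rcases lt_trichotomy (kap y) (k + 1) with h2 | h2 | h2
    · exfalso
      rw [sgK_top h1] at h
      have := A_lt_A (show kap y < kap x by omega)
      linarith [hay.2]
    · rw [sgK_top h1, sgK_top h2] at h
      have hB := hBt (by omega)
      have hN : N (B (kap x)) x < N (B (kap x)) y := by
        unfold A at h; rw [h2, h1] at h; rw [h1]
        have : ((N (B (k + 1)) x : ℕ) : ℤ) < ((N (B (k + 1)) y : ℕ) : ℤ) := by linarith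
        exact_mod_cast this
      have hcx : c t x = false := by
        by_contra hcf
        have hcf' : c t x = true := by simpa using hcf
        have := N_gt_of hB x q hq hcf'
        rw [hyd] at this; omega
      rw [P_top h1, P_top h2, hc, hcx]
      simp
    · omega

lemma P_true {k t : ℕ} {x : ℤ} (h : c t x = true) :
    (P k t x = 0 ∧ kap x = k) ∨ (P k t x = 2 ∧ kap x ≠ k ∧ kap x ≠ k + 1) ∨
      (P k t x = 4 ∧ kap x = k + 1) := by
  unfold P
  by_cases h1 : kap x = k + 1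
  · simp [h1, h]
  · by_cases h2 : kap x = k
    · simp [h2, h]
    · simp [h1, h2]

lemma P_false {k t : ℕ} {x : ℤ} (h : c t x = false) :
    (P k t x = 1 ∧ kap x = k) ∨ (P k t x = 2 ∧ kap x ≠ k ∧ kap x ≠ k + 1) ∨
      (P k t x = 3 ∧ kap x = k + 1) := by
  unfold P
  by_cases h1 : kap x = k + 1
  · simp [h1, h]
  · by_cases h2 : kap x = k
    · simp [h2, h]
    · simp [h1, h2]

/-- No four terms in increasing position order (transition `k`, side-normalised). -/
lemma no4 {k t : ℕ} {x q : ℤ} (hq : q % 2 = 1)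
    (h0 : kap x ≤ k + 1) (h1 : kap (x + 2 ^ t * q) ≤ k + 1)
    (h2 : kap (x + 2 * (2 ^ t * q)) ≤ k + 1) (h3 : kap (x + 3 * (2 ^ t * q)) ≤ k + 1)
    (htop : kap x = k + 1 ∨ kap (x + 2 ^ t * q) = k + 1 ∨ kap (x + 2 * (2 ^ t * q)) = k + 1 ∨
      kap (x + 3 * (2 ^ t * q)) = k + 1)
    (g1 : sg k * K x < sg k * K (x + 2 ^ t * q))
    (g2 : sg k * K (x + 2 ^ t * q) < sg k * K (x + 2 * (2 ^ t * q)))
    (g3 : sg k * K (x + 2 * (2 ^ t * q)) < sg k * K (x + 3 * (2 ^ t * q))) : False := by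
  have hT := tau_pos k
  obtain ⟨D, hD⟩ : ∃ D : ℤ, D = 2 ^ t * q := ⟨_, rfl⟩
  have e2 : x + 2 * (2 ^ t * q) = (x + 2 ^ t * q) + 2 ^ t * q := by ring
  have e3 : x + 3 * (2 ^ t * q) = (x + 2 * (2 ^ t * q)) + 2 ^ t * q := by ring
  -- big element
  have hbig : 16 * tau k ≤ |x| ∨ 16 * tau k ≤ |x + D| ∨ 16 * tau k ≤ |x + 2 * D| ∨
      16 * tau k ≤ |x + 3 * D| := by
    have aux : ∀ y : ℤ, kap y = k + 1 → 16 * tau k ≤ |y| := by
      intro y hy
      by_contra hlt
      have : kap y ≤ k := kap_le_iff.2 (Or.inl (by linarith))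
      omega
    rw [hD]
    rcases htop with h | h | h | h
    · exact Or.inl (aux _ h)
    · exact Or.inr (Or.inl (aux _ h))
    · exact Or.inr (Or.inr (Or.inl (aux _ h)))
    · exact Or.inr (Or.inr (Or.inr (aux _ h)))
  have hT1 : ¬ (kap x < k ∧ kap (x + 2 ^ t * q) < k) := by
    rintro ⟨a, b⟩
    have a' := abs_lt.1 (abs_lt_of_kap_lt a)
    have b' := abs_lt.1 (abs_lt_of_kap_lt b)
    rw [← hD] at b'
    rcases hbig with h | h | h | h <;> rcases le_abs.1 h with h' | h' <;> linarith [a'.1, a'.2, b'.1, b'.2]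
  have hT2 : ¬ (kap (x + 2 ^ t * q) < k ∧ kap (x + 2 * (2 ^ t * q)) < k) := by
    rintro ⟨a, b⟩
    have a' := abs_lt.1 (abs_lt_of_kap_lt a)
    have b' := abs_lt.1 (abs_lt_of_kap_lt b)
    rw [← hD] at b' a'
    rcases hbig with h | h | h | h <;> rcases le_abs.1 h with h' | h' <;> linarith [a'.1, a'.2, b'.1, b'.2]
  have hT3 : ¬ (kap (x + 2 * (2 ^ t * q)) < k ∧ kap (x + 3 * (2 ^ t * q)) < k) := by
    rintro ⟨a, b⟩
    have a' := abs_lt.1 (abs_lt_of_kap_lt a)
    have b' := abs_lt.1 (abs_lt_of_kap_lt b)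
    rw [← hD] at b' a'
    rcases hbig with h | h | h | h <;> rcases le_abs.1 h with h' | h' <;> linarith [a'.1, a'.2, b'.1, b'.2]
  have p1 := P_lt (t := t) hq h0 h1 hT1 g1
  have p2 : P k t (x + 2 ^ t * q) < P k t (x + 2 * (2 ^ t * q)) := by
    rw [e2] at h2 hT2 g2 ⊢
    exact P_lt (t := t) hq h1 h2 hT2 g2
  have p3 : P k t (x + 2 * (2 ^ t * q)) < P k t (x + 3 * (2 ^ t * q)) := by
    rw [e3] at h3 hT3 g3 ⊢
    exact P_lt (t := t) hq h2 h3 hT3 g3
  have c1 : c t (x + 2 ^ t * q) = !(c t x) := c_ne x q hq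
  have c2 : c t (x + 2 * (2 ^ t * q)) = c t x := by
    rw [e2, c_ne _ q hq, c1]; simp
  have c3 : c t (x + 3 * (2 ^ t * q)) = !(c t x) := by
    rw [e3, c_ne _ q hq, c2]
  rcases hcx : c t x with _ | _
  · -- c t x = false : pattern (A, T, B, B)
    rw [hcx] at c1 c2 c3
    simp only [Bool.not_false] at c1 c3
    have q0 := P_false (k := k) hcx
    have q1 := P_true (k := k) c1
    have q2 := P_false (k := k) c2
    have q3 := P_true (k := k) c3
    have r0 : kap x = k := by omega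
    have r1 : kap (x + 2 ^ t * q) < k := by omega
    have r2 : kap (x + 2 * (2 ^ t * q)) = k + 1 := by omega
    have r3 : kap (x + 3 * (2 ^ t * q)) = k + 1 := by omega
    have hk := key (k := k) (t := t) (z := x + 2 ^ t * q) (D := 2 ^ t * q) (q := q)
      (abs_lt_of_kap_lt r1) rfl hq c1
      (by
        have : x + 2 ^ t * q - 2 ^ t * q = x := by ring
        rw [this]; exact kap_le_iff.1 r0.le)
      (by
        intro hl
        have : x + 2 ^ t * q + 2 ^ t * q = x + 2 * (2 ^ t * q) := by ring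
        rw [this] at hl
        have := kap_le_iff.2 hl
        omega)
    have hl := hk.1
    have e : x + 2 ^ t * q + 2 * (2 ^ t * q) = x + 3 * (2 ^ t * q) := by ring
    rw [e] at hl
    have := kap_le_iff.2 hl
    omega
  · rw [hcx] at c1 c2 c3
    simp only [Bool.not_true] at c1 c3
    have q0 := P_true (k := k) hcx
    have q1 := P_false (k := k) c1
    have q2 := P_true (k := k) c2
    have q3 := P_false (k := k) c3
    have r0 : kap x = k := by omega
    have r1 : kap (x + 2 ^ t * q) = k := by omega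
    have r2 : kap (x + 2 * (2 ^ t * q)) < k := by omega
    have r3 : kap (x + 3 * (2 ^ t * q)) = k + 1 := by omega
    have hk := key (k := k) (t := t) (z := x + 2 * (2 ^ t * q)) (D := 2 ^ t * q) (q := q)
      (abs_lt_of_kap_lt r2) rfl hq c2
      (by
        have : x + 2 * (2 ^ t * q) - 2 ^ t * q = x + 2 ^ t * q := by ring
        rw [this]; exact kap_le_iff.1 r1.le)
      (by
        intro hl
        have : x + 2 * (2 ^ t * q) + 2 ^ t * q = x + 3 * (2 ^ t * q) := by ring
        rw [this] at hl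
        have := kap_le_iff.2 hl
        omega)
    apply hk.2
    have e : x + 2 * (2 ^ t * q) - 2 * (2 ^ t * q) = x := by ring
    rw [e]; exact kap_le_iff.1 r0.le

lemma two_pow_odd (D : ℤ) (hD : D ≠ 0) : ∃ (t : ℕ) (q : ℤ), q % 2 = 1 ∧ D = 2 ^ t * q := by
  obtain ⟨t, n, hn, h⟩ := Nat.exists_eq_two_pow_mul_odd (n := D.natAbs) (by omega)
  rcases Int.natAbs_eq D with e | e
  · refine ⟨t, n, ?_, ?_⟩
    · obtain ⟨r, hr⟩ := hn; omega
    · rw [e, h]; push_cast; ring
  · refine ⟨t, -n, ?_, ?_⟩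
    · obtain ⟨r, hr⟩ := hn; omega
    · rw [e, h]; push_cast; ring

/-- No monotone 4-term progression. -/
theorem noAP (x D : ℤ) (hD : D ≠ 0) :
    ¬ (K x < K (x + D) ∧ K (x + D) < K (x + 2 * D) ∧ K (x + 2 * D) < K (x + 3 * D)) := by
  rintro ⟨g1, g2, g3⟩
  obtain ⟨t, q, hq, rfl⟩ := two_pow_odd D hD
  obtain ⟨M, hM⟩ : ∃ M, M = max (max (kap x) (kap (x + 2 ^ t * q)))
    (max (kap (x + 2 * (2 ^ t * q))) (kap (x + 3 * (2 ^ t * q)))) := ⟨_, rfl⟩
  have m0 : kap x ≤ M := by omega
  have m1 : kap (x + 2 ^ t * q) ≤ M := by omega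
  have m2 : kap (x + 2 * (2 ^ t * q)) ≤ M := by omega
  have m3 : kap (x + 3 * (2 ^ t * q)) ≤ M := by omega
  have mtop : kap x = M ∨ kap (x + 2 ^ t * q) = M ∨ kap (x + 2 * (2 ^ t * q)) = M ∨
      kap (x + 3 * (2 ^ t * q)) = M := by omega
  rcases M with _ | k
  · -- all in window 0
    have z0 : kap x = 0 := by omega
    have z1 : kap (x + 2 ^ t * q) = 0 := by omega
    have z2 : kap (x + 2 * (2 ^ t * q)) = 0 := by omega
    have e2 : x + 2 * (2 ^ t * q) = (x + 2 ^ t * q) + 2 ^ t * q := by ring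
    have hB0 := t_lt_B (x := x) (q := q) (t := t) hq (by omega)
    rw [z0] at hB0
    have n1 : N (B 0) x < N (B 0) (x + 2 ^ t * q) := by
      unfold K A at g1; rw [z0, z1] at g1
      have : ((N (B 0) x : ℕ) : ℤ) < ((N (B 0) (x + 2 ^ t * q) : ℕ) : ℤ) := by
        simp only [pow_zero, one_mul] at g1; linarith
      exact_mod_cast this
    have n2 : N (B 0) (x + 2 ^ t * q) < N (B 0) (x + 2 * (2 ^ t * q)) := by
      unfold K A at g2; rw [z1, z2] at g2
      have : ((N (B 0) (x + 2 ^ t * q) : ℕ) : ℤ) < ((N (B 0) (x + 2 * (2 ^ t * q)) : ℕ) : ℤ) := by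
        simp only [pow_zero, one_mul] at g2; linarith
      exact_mod_cast this
    rcases hcx : c t x with _ | _
    · have c1 : c t (x + 2 ^ t * q) = true := by rw [c_ne x q hq, hcx]; rfl
      have := N_gt_of hB0 (x + 2 ^ t * q) q hq c1
      rw [← e2] at this; omega
    · have := N_gt_of hB0 x q hq hcx
      omega
  · rcases Nat.even_or_odd k with hk | hk
    · -- sg k = -1 : reverse
      have hs : sg k = -1 := by unfold sg; exact Odd.neg_one_pow (hk.add_one)
      have hq' : (-q) % 2 = 1 := by omega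
      have f1 : (x + 3 * (2 ^ t * q)) + 2 ^ t * (-q) = x + 2 * (2 ^ t * q) := by ring
      have f2 : (x + 3 * (2 ^ t * q)) + 2 * (2 ^ t * (-q)) = x + 2 ^ t * q := by ring
      have f3 : (x + 3 * (2 ^ t * q)) + 3 * (2 ^ t * (-q)) = x := by ring
      apply no4 (k := k) (t := t) (x := x + 3 * (2 ^ t * q)) (q := -q) hq'
      · exact m3
      · rw [f1]; exact m2
      · rw [f2]; exact m1
      · rw [f3]; exact m0
      · rw [f1, f2, f3]
        rcases mtop with h | h | h | h
        · exact Or.inr (Or.inr (Or.inr h))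
        · exact Or.inr (Or.inr (Or.inl h))
        · exact Or.inr (Or.inl h)
        · exact Or.inl h
      · rw [f1, hs]; linarith
      · rw [f1, f2, hs]; linarith
      · rw [f2, f3, hs]; linarith
    · have hs : sg k = 1 := by unfold sg; exact Even.neg_one_pow (hk.add_one)
      apply no4 (k := k) (t := t) (x := x) (q := q) hq m0 m1 m2 m3 mtop <;> rw [hs] <;> linarith

lemma K_inj : Function.Injective K := by
  intro x y h
  by_contra hne
  have hA : A x = A y := by
    have h1 := sgK_abs 0 x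
    have h2 := sgK_abs 0 y
    rw [h] at h1; rw [← h1, ← h2]
  have hk : kap x = kap y := by
    rcases lt_trichotomy (kap x) (kap y) with a | a | a
    · have := A_lt_A a; omega
    · exact a
    · have := A_lt_A a; omega
  obtain ⟨t, q, hq, e⟩ := two_pow_odd (y - x) (by omega)
  have ey : y = x + 2 ^ t * q := by linarith
  have hB := t_lt_B (x := x) (q := q) (t := t) hq (by rw [← ey]; exact hk)
  have hN : N (B (kap x)) x = N (B (kap x)) y := by
    unfold A at hA; rw [← hk] at hA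
    have : ((N (B (kap x)) x : ℕ) : ℤ) = ((N (B (kap x)) y : ℕ) : ℤ) := by linarith
    exact_mod_cast this
  rcases hcx : c t x with _ | _
  · have := N_lt_of hB x q hq hcx
    rw [← ey] at this; omega
  · have := N_gt_of hB x q hq hcx
    rw [← ey] at this; omega

lemma kap_tau (k : ℕ) : kap (tau k) = k := by
  have h1 : kap (tau k) ≤ k := by
    rw [kap_le_iff]; left
    have := tau_pos k
    rw [abs_of_pos this]; linarith
  by_contra hne
  have := abs_lt_of_kap_lt (show kap (tau k) < k by omega)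
  rw [abs_of_pos (tau_pos k)] at this
  exact lt_irrefl _ this

lemma A_tau (k : ℕ) : (k : ℤ) < A (tau k) := by
  have h1 := A_ge (tau k)
  rw [kap_tau] at h1
  have h2 : (B k : ℤ) < 2 ^ (B k) := by exact_mod_cast Nat.lt_two_pow_self
  have h3 : (k : ℤ) ≤ B k := by exact_mod_cast le_B k
  linarith

lemma unb_above (a : ℤ) : ∃ x, a < K x := by
  refine ⟨tau (2 * a.natAbs), ?_⟩
  have h := A_tau (2 * a.natAbs)
  unfold K
  rw [kap_tau, Even.neg_one_pow ⟨a.natAbs, by ring⟩, one_mul]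
  push_cast at h
  have := le_abs_self a
  have := abs_nonneg a
  linarith

lemma unb_below (a : ℤ) : ∃ x, K x < a := by
  refine ⟨tau (2 * a.natAbs + 1), ?_⟩
  have h := A_tau (2 * a.natAbs + 1)
  unfold K
  rw [kap_tau, Odd.neg_one_pow ⟨a.natAbs, rfl⟩]
  push_cast at h
  have := neg_abs_le a
  have := abs_nonneg a
  linarith

theorem enum : ∃ f : ℤ → ℤ, Function.Bijective f ∧ ∀ i j : ℤ, i < j → K (f i) < K (f j) := by
  classical
  let S := Set.range K
  have : Nonempty S := ⟨⟨K 0, 0, rfl⟩⟩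
  have : NoMaxOrder S := ⟨by
    rintro ⟨a, ha⟩
    obtain ⟨x, hx⟩ := unb_above a
    exact ⟨⟨K x, x, rfl⟩, hx⟩⟩
  have : NoMinOrder S := ⟨by
    rintro ⟨a, ha⟩
    obtain ⟨x, hx⟩ := unb_below a
    exact ⟨⟨K x, x, rfl⟩, hx⟩⟩
  let _ : SuccOrder S := LinearLocallyFiniteOrder.succOrder S
  let _ : PredOrder S := LinearLocallyFiniteOrder.predOrder S
  let e : S ≃o ℤ := orderIsoIntOfLinearSuccPredArch
  let g : ℤ ≃ S := Equiv.ofInjective K K_inj
  refine ⟨fun n => g.symm (e.symm n), (g.symm.bijective.comp e.symm.bijective), ?_⟩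
  intro i j hij
  have h1 : ∀ s : S, K (g.symm s) = s := by
    intro s
    exact congrArg Subtype.val (g.apply_symm_apply s)
  show K (g.symm (e.symm i)) < K (g.symm (e.symm j))
  rw [h1, h1]
  exact e.symm.strictMono hij

end Pool.Agent.W324.ZAP
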