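import Mathlib
set_option autoImplicit false

namespace Pool.Agent.W324.ZAP

/-- The `t`-th bit of the Gray code of `x` (two's complement for negative `x`). -/
def c (t : ℕ) (x : ℤ) : Bool := decide (((2 * x + 2 ^ t) / 2 ^ (t + 1)) % 2 = 1)

lemma c_eq {s t : ℕ} (h : s < t) (x q : ℤ) : c s (x + 2 ^ t * q) = c s x := by
  unfold c
  obtain ⟨d, rfl⟩ : ∃ d, t = s + 1 + d := ⟨t - (s + 1), by omega⟩
  have h1 : (2 * (x + 2 ^ (s + 1 + d) * q) + 2 ^ s : ℤ)
      = (2 * x + 2 ^ s) + (2 * (2 ^ d * q)) * 2 ^ (s + 1) := by ring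
  have h0 : (2 ^ (s + 1) : ℤ) ≠ 0 := by positivity
  rw [h1, Int.add_mul_ediv_right _ _ h0]
  have h2 : ((2 * x + 2 ^ s) / 2 ^ (s + 1) + 2 * (2 ^ d * q)) % 2
      = ((2 * x + 2 ^ s) / 2 ^ (s + 1)) % 2 := by
    generalize (2 * x + 2 ^ s) / 2 ^ (s + 1) = u
    generalize (2 ^ d * q : ℤ) = w
    omega
  rw [h2]

lemma c_ne {t : ℕ} (x q : ℤ) (hq : q % 2 = 1) : c t (x + 2 ^ t * q) = !(c t x) := by
  unfold c
  have h1 : (2 * (x + 2 ^ t * q) + 2 ^ t : ℤ)
      = (2 * x + 2 ^ t) + q * 2 ^ (t + 1) := by ring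
  have h0 : (2 ^ (t + 1) : ℤ) ≠ 0 := by positivity
  rw [h1, Int.add_mul_ediv_right _ _ h0]
  generalize (2 * x + 2 ^ t) / 2 ^ (t + 1) = u
  by_cases hu : u % 2 = 1
  · have : ¬ ((u + q) % 2 = 1) := by omega
    simp [hu, this]
  · have : (u + q) % 2 = 1 := by omega
    simp [hu, this]

lemma c_small {t m : ℕ} (h : m + 1 ≤ t) (z : ℤ) (hz : |z| < 2 ^ m) : c t z = false := by
  unfold c
  have h1 : (2 : ℤ) ^ (m + 1) ≤ 2 ^ t := pow_le_pow_right₀ (by norm_num) h
  have h2 := abs_lt.1 hz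
  have h3 : (2 : ℤ) ^ (m + 1) = 2 * 2 ^ m := by ring
  have h4 : (2 : ℤ) ^ (t + 1) = 2 * 2 ^ t := by ring
  have h5 : (2 * z + 2 ^ t) / 2 ^ (t + 1) = 0 := by
    apply Int.ediv_eq_zero_of_lt
    · linarith [h2.1]
    · linarith [h2.2]
  rw [h5]; simp

/-- Reversed Gray code of the lowest `J` bits. -/
def N : ℕ → ℤ → ℕ
  | 0, _ => 0
  | (J + 1), x => 2 * N J x + (if c J x then 1 else 0)

lemma N_lt_pow (J : ℕ) (x : ℤ) : N J x < 2 ^ J := by
  induction J with
  | zero => simp [N]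
  | succ J ih =>
    have : (2 : ℕ) ^ (J + 1) = 2 * 2 ^ J := by ring
    rw [N, this]
    split_ifs <;> omega

lemma N_congr (t : ℕ) (x q : ℤ) : ∀ s : ℕ, s ≤ t → N s (x + 2 ^ t * q) = N s x := by
  intro s
  induction s with
  | zero => intro _; rfl
  | succ s ih =>
    intro hs
    rw [N, N, ih (by omega), c_eq (by omega)]

lemma N_lt_N {t : ℕ} (x y : ℤ) (hN : N t x = N t y) (hx : c t x = false) (hy : c t y = true) :
    ∀ J : ℕ, t < J → N J x < N J y := by
  intro J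
  induction J with
  | zero => intro h; omega
  | succ J ih =>
    intro h
    rw [N, N]
    rcases Nat.lt_or_ge t J with h1 | h1
    · have := ih h1
      split_ifs <;> omega
    · have : J = t := by omega
      subst this
      rw [hN]; simp [hx, hy]

/-- two points differing by `2^t * odd`, first one with bit `0` -/
lemma N_lt_of {t J : ℕ} (hJ : t < J) (x q : ℤ) (hq : q % 2 = 1) (hx : c t x = false) :
    N J x < N J (x + 2 ^ t * q) := by
  apply N_lt_N x _ (N_congr t x q t le_rfl).symm hx _ J hJ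
  rw [c_ne x q hq, hx]; rfl

lemma N_gt_of {t J : ℕ} (hJ : t < J) (x q : ℤ) (hq : q % 2 = 1) (hx : c t x = true) :
    N J (x + 2 ^ t * q) < N J x := by
  apply N_lt_N _ x (N_congr t x q t le_rfl) _ hx J hJ
  rw [c_ne x q hq, hx]; rfl

def m : ℕ → ℕ
  | 0 => 0
  | (k + 1) => m k + 4 + 2 ^ (m k + 1)

def tau (k : ℕ) : ℤ := 2 ^ (m k)

lemma tau_pos (k : ℕ) : 0 < tau k := by unfold tau; positivity

lemma m_lt (k : ℕ) : m k + 4 < m (k + 1) := by
  rw [m]; have : 0 < 2 ^ (m k + 1) := by positivity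
  omega

lemma tau_step (k : ℕ) : 16 * tau k < tau (k + 1) := by
  unfold tau
  have h : (16 : ℤ) * 2 ^ (m k) = 2 ^ (m k + 4) := by ring
  rw [h]
  exact pow_lt_pow_right₀ (by norm_num) (m_lt k)

lemma tau_mono {j k : ℕ} (h : j ≤ k) : tau j ≤ tau k := by
  induction h with
  | refl => rfl
  | step h ih => rename_i k; have := tau_step k; have := tau_pos k; exact ih.trans (by linarith)

lemma m_mono {j k : ℕ} (h : j ≤ k) : m j ≤ m k := by
  induction h with
  | refl => rfl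
  | step h ih =>
    rename_i k
    have h1 := m_lt k
    have h2 : m k.succ = m (k + 1) := rfl
    omega

lemma le_m (k : ℕ) : k ≤ m k := by
  induction k with
  | zero => simp
  | succ k ih => have := m_lt k; omega

def Low (k : ℕ) (x : ℤ) : Prop :=
  |x| < 16 * tau k ∨ ∃ i : ℕ, i ≤ N (m k + 1) x ∧ (12 * 2 ^ i + 3) * tau k ≤ (-1) ^ (i + 1) * x ∧
    (-1) ^ (i + 1) * x < (24 * 2 ^ i - 3) * tau k

lemma Low_bound {k : ℕ} {x : ℤ} (h : Low k x) : |x| < tau (k + 1) := by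
  rcases h with h | ⟨i, hi, h1, h2⟩
  · exact h.trans (tau_step k)
  · have hN := N_lt_pow (m k + 1) x
    have habs : |x| = |(-1) ^ (i + 1) * x| := by rw [abs_mul, abs_pow]; simp
    have hpos : 0 ≤ (-1) ^ (i + 1) * x := le_trans (by have := tau_pos k; positivity) h1
    rw [habs, abs_of_nonneg hpos]
    have hi2 : (2 : ℤ) ^ (i + 1) ≤ 2 ^ (2 ^ (m k + 1)) := pow_le_pow_right₀ (by norm_num) (by omega)
    have h3 : tau (k + 1) = 2 ^ (m k) * (16 * 2 ^ (2 ^ (m k + 1))) := by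
      unfold tau; rw [m]; ring
    have h4 : (2 : ℤ) ^ (i + 1) = 2 * 2 ^ i := by ring
    have h5 := tau_pos k
    have h6 : (24 * 2 ^ i - 3) * tau k < (16 * 2 ^ (2 ^ (m k + 1))) * tau k := by
      apply mul_lt_mul_of_pos_right _ h5
      have : (0:ℤ) < 2 ^ i := by positivity
      linarith
    calc (-1) ^ (i + 1) * x < (24 * 2 ^ i - 3) * tau k := h2
      _ < (16 * 2 ^ (2 ^ (m k + 1))) * tau k := h6
      _ = tau (k + 1) := by rw [h3]; unfold tau; ring

lemma Low_succ {k : ℕ} {x : ℤ} (h : Low k x) : Low (k + 1) x := by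
  left
  have := Low_bound h
  have := tau_pos (k + 1)
  linarith

lemma Low_mono {j k : ℕ} (h : j ≤ k) {x : ℤ} (hx : Low j x) : Low k x := by
  induction h with
  | refl => exact hx
  | step h ih => exact Low_succ ih

lemma disj {i j : ℕ} {T u : ℤ} (hT : 0 < T) (h1 : (12 * 2 ^ i + 3) * T < u)
    (h2 : u < (24 * 2 ^ i - 3) * T) (h3 : (12 * 2 ^ j + 3) * T ≤ u)
    (h4 : u < (24 * 2 ^ j - 3) * T) : i = j := by
  have e1 : (12 * 2 ^ i + 3 : ℤ) < 24 * 2 ^ j - 3 := lt_of_mul_lt_mul_right (h1.trans h4) hT.le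
  have e2 : (12 * 2 ^ j + 3 : ℤ) < 24 * 2 ^ i - 3 := lt_of_mul_lt_mul_right (h3.trans_lt h2) hT.le
  have f1 : (2 : ℤ) ^ i < 2 ^ (j + 1) := by
    have : (2 : ℤ) ^ (j + 1) = 2 * 2 ^ j := by ring
    linarith
  have f2 : (2 : ℤ) ^ j < 2 ^ (i + 1) := by
    have : (2 : ℤ) ^ (i + 1) = 2 * 2 ^ i := by ring
    linarith
  have g1 := (pow_lt_pow_iff_right₀ (by norm_num : (1:ℤ) < 2)).1 f1
  have g2 := (pow_lt_pow_iff_right₀ (by norm_num : (1:ℤ) < 2)).1 f2
  omega

/-- The key lemma. -/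
lemma key {k t : ℕ} {z D q : ℤ} (hz : |z| < tau k) (hD : D = 2 ^ t * q) (hq : q % 2 = 1)
    (hc : c t z = true) (h1 : Low k (z - D)) (h2 : ¬ Low k (z + D)) :
    Low k (z + 2 * D) ∧ ¬ Low k (z - 2 * D) := by
  have hT := tau_pos k
  have ht : t < m k + 1 := by
    by_contra h
    have := c_small (show m k + 1 ≤ t by omega) z hz
    rw [this] at hc; exact absurd hc (by decide)
  have hz' := abs_lt.1 hz
  -- find the island
  obtain ⟨i, hi, hi1, hi2⟩ : ∃ i : ℕ, i ≤ N (m k + 1) (z - D) ∧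
      (12 * 2 ^ i + 2) * tau k < (-1) ^ i * D ∧ (-1) ^ i * D < (24 * 2 ^ i - 2) * tau k := by
    rcases h1 with h1 | ⟨i, hi, h3, h4⟩
    · refine ⟨0, Nat.zero_le _, ?_⟩
      have h1' := abs_lt.1 h1
      have h2' : 16 * tau k ≤ |z + D| := by
        by_contra h; exact h2 (Or.inl (by linarith))
      rcases le_or_gt 0 (z + D) with h | h
      · rw [abs_of_nonneg h] at h2'
        constructor <;> simp <;> linarith
      · exfalso
        rw [abs_of_neg h] at h2'
        apply h2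
        right
        refine ⟨0, Nat.zero_le _, ?_, ?_⟩ <;> simp <;> linarith
    · refine ⟨i, hi, ?_⟩
      have e : (-1 : ℤ) ^ (i + 1) * (z - D) = (-1) ^ i * D - (-1) ^ i * z := by ring
      rw [e] at h3 h4
      have ez : |(-1 : ℤ) ^ i * z| < tau k := by rw [abs_mul, abs_pow]; simpa using hz
      have ez' := abs_lt.1 ez
      constructor <;> nlinarith
  have ez : |(-1 : ℤ) ^ i * z| < tau k := by rw [abs_mul, abs_pow]; simpa using hz
  have ez' := abs_lt.1 ez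
  have hp : (2 : ℤ) ^ (i + 1) = 2 * 2 ^ i := by ring
  constructor
  · right
    refine ⟨i + 1, ?_, ?_, ?_⟩
    · have hlt : N (m k + 1) (z - D) < N (m k + 1) (z + 2 * D) := by
        have e : z + 2 * D = (z - D) + 2 ^ t * (3 * q) := by rw [hD]; ring
        rw [e]
        apply N_lt_of ht _ _ (by omega)
        have e2 : z - D = z + 2 ^ t * (-q) := by rw [hD]; ring
        rw [e2, c_ne z (-q) (by omega), hc]; rfl
      omega
    · have e : (-1 : ℤ) ^ (i + 1 + 1) * (z + 2 * D) = (-1) ^ i * z + 2 * ((-1) ^ i * D) := by ring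
      rw [e, hp]; nlinarith
    · have e : (-1 : ℤ) ^ (i + 1 + 1) * (z + 2 * D) = (-1) ^ i * z + 2 * ((-1) ^ i * D) := by ring
      rw [e, hp]; nlinarith
  · have hu1 : (12 * 2 ^ (i + 1) + 3) * tau k < (-1) ^ (i + 1) * (z - 2 * D) := by
      have e : (-1 : ℤ) ^ (i + 1) * (z - 2 * D) = 2 * ((-1) ^ i * D) - (-1) ^ i * z := by ring
      rw [e, hp]; nlinarith
    have hu2 : (-1) ^ (i + 1) * (z - 2 * D) < (24 * 2 ^ (i + 1) - 3) * tau k := by
      have e : (-1 : ℤ) ^ (i + 1) * (z - 2 * D) = 2 * ((-1) ^ i * D) - (-1) ^ i * z := by ring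
      rw [e, hp]; nlinarith
    rintro (h | ⟨j, hj, h3, h4⟩)
    · have habs : |z - 2 * D| = |(-1) ^ (i + 1) * (z - 2 * D)| := by
        rw [abs_mul, abs_pow]; simp
      rw [habs] at h
      have h6 := (abs_lt.1 h).2
      have h7 : (1 : ℤ) ≤ 2 ^ i := one_le_pow₀ (by norm_num)
      rw [hp] at hu1
      nlinarith
    · have hpar : (-1 : ℤ) ^ (j + 1) = (-1) ^ (i + 1) ∨ (-1 : ℤ) ^ (j + 1) = - (-1) ^ (i + 1) := by
        rcases neg_one_pow_eq_or ℤ (j + 1) with a | a <;>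
        rcases neg_one_pow_eq_or ℤ (i + 1) with b | b <;> simp [a, b]
      have h7 : (0 : ℤ) < 2 ^ (i + 1) := by positivity
      have h8 : (0 : ℤ) < 2 ^ j := by positivity
      rcases hpar with hp1 | hp1
      · rw [hp1] at h3 h4
        have := disj hT hu1 hu2 h3 h4
        subst this
        -- parity contradiction
        have : (-1 : ℤ) ^ (i + 1 + 1) = - (-1) ^ (i + 1) := by ring
        rw [this] at hp1
        rcases neg_one_pow_eq_or ℤ (i + 1) with b | b <;> rw [b] at hp1 <;> norm_num at hp1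
      · rw [hp1] at h3
        nlinarith

end Pool.Agent.W324.ZAP
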